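import Pool.Agent.Helper82.CN.St

/-!
# Project CN (MP_e12aa9_pr): module OVU (union bound over the overlap patterns)
-/

set_option autoImplicit false

namespace Pool.Agent.Helper88.CN

open Finset Pool.Agent.Helper82.CN

/-- the common vertices of two classes -/
private def rr_OVU {n k : ℕ} (c : Fin n → Fin k) (π : Equiv.Perm (Fin n)) (x : Fin k × Fin k) :
    Finset (Fin n) :=
  univ.filter (fun v => c v = x.1 ∧ c (π v) = x.2)

/-- the same, if there are at least two of them -/
private def BB_OVU {n k : ℕ} (c : Fin n → Fin k) (π : Equiv.Perm (Fin n)) (x : Fin k × Fin k) :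
    Finset (Fin n) :=
  if 2 ≤ (rr_OVU c π x).card then rr_OVU c π x else ∅

private lemma BB_sub_OVU {n k : ℕ} (c : Fin n → Fin k) (π : Equiv.Perm (Fin n))
    (x : Fin k × Fin k) : BB_OVU c π x ⊆ rr_OVU c π x := by
  unfold BB_OVU
  split_ifs
  · exact Finset.Subset.refl _
  · exact Finset.empty_subset _

private lemma choose_OVU {n k : ℕ} (c : Fin n → Fin k) (π : Equiv.Perm (Fin n))
    (x : Fin k × Fin k) : (rr_OVU c π x).card.choose 2 = (BB_OVU c π x).card.choose 2 := by
  unfold BB_OVU
  split_ifs with h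
  · rfl
  · have h2 : (rr_OVU c π x).card < 2 := by omega
    rw [Nat.choose_eq_zero_of_lt h2]
    simp

/-- the pattern of a permutation -/
private def uu_OVU {n k : ℕ} (c : Fin n → Fin k) (π : Equiv.Perm (Fin n)) :
    Fin k → Fin k → ℕ := fun i j => (BB_OVU c π (i, j)).card

private lemma ov_OVU {n k : ℕ} (c : Fin n → Fin k) (π : Equiv.Perm (Fin n)) :
    ov c (c ∘ π) = ∑ i, ∑ j, (uu_OVU c π i j).choose 2 := by
  unfold ov uu_OVU
  refine Finset.sum_congr rfl fun i _ => Finset.sum_congr rfl fun j _ => ?_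
  rw [← choose_OVU]
  congr 2

private lemma disj_OVU {n k : ℕ} (c : Fin n → Fin k) (π : Equiv.Perm (Fin n))
    (x y : Fin k × Fin k) (h : x ≠ y) : Disjoint (BB_OVU c π x) (BB_OVU c π y) := by
  rw [Finset.disjoint_left]
  intro v hx hy
  have h1 := BB_sub_OVU c π x hx
  have h2 := BB_sub_OVU c π y hy
  unfold rr_OVU at h1 h2
  simp only [Finset.mem_filter, Finset.mem_univ, true_and] at h1 h2
  exact h (Prod.ext (h1.1.symm.trans h2.1) (h1.2.symm.trans h2.2))

private lemma mem_OVU {n k : ℕ} (c : Fin n → Fin k) (hc : c ∈ Bal n k) (π : Equiv.Perm (Fin n)) :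
    uu_OVU c π ∈ UU n k := by
  classical
  unfold UU
  rw [Finset.mem_filter]
  refine ⟨?_, ?_, ?_⟩
  · rw [Fintype.mem_piFinset]
    intro i
    rw [Fintype.mem_piFinset]
    intro j
    rw [Finset.mem_range]
    unfold uu_OVU
    have := Finset.card_le_univ (BB_OVU c π (i, j))
    rw [Fintype.card_fin] at this
    omega
  · intro i j
    unfold uu_OVU BB_OVU
    split_ifs with h
    · omega
    · simp
  · intro i
    unfold Bal at hc
    rw [Finset.mem_filter] at hc
    rw [← hc.2 i]
    unfold uu_OVU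
    rw [← Finset.card_biUnion]
    · refine Finset.card_le_card ?_
      intro v hv
      rw [Finset.mem_biUnion] at hv
      obtain ⟨j, _, hj⟩ := hv
      have h1 := BB_sub_OVU c π (i, j) hj
      unfold rr_OVU at h1
      rw [Finset.mem_filter] at h1
      rw [Finset.mem_filter]
      exact ⟨Finset.mem_univ _, h1.2.1⟩
    · intro j _ j' _ hjj
      exact disj_OVU c π _ _ (fun h => hjj (congrArg Prod.snd h))

private lemma count_OVU (hO : StOvc) (n k : ℕ) (c : Fin n → Fin k) (hc : c ∈ Bal n k)
    (u : Fin k → Fin k → ℕ) :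
    (((univ : Finset (Equiv.Perm (Fin n))).filter (fun π => uu_OVU c π = u)).card : ℝ) ≤
      ((n - ∑ i, ∑ j, u i j).factorial : ℝ) *
        ∏ i, ∏ j, (((sz n k i).choose (u i j) : ℝ) * ((sz n k j).choose (u i j) : ℝ) *
          ((u i j).factorial : ℝ)) := by
  classical
  have hc' : ∀ i : Fin k, ((univ : Finset (Fin n)).filter (fun v => c v = i)).card = sz n k i := by
    unfold Bal at hc
    rw [Finset.mem_filter] at hc
    intro i
    rw [← hc.2 i]
  set S := (univ : Finset (Equiv.Perm (Fin n))).filter (fun π => uu_OVU c π = u) with hS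
  let Φ : Equiv.Perm (Fin n) → (Fin k × Fin k → Finset (Fin n)) × (Fin k × Fin k → Finset (Fin n)) :=
    fun π => (fun x => BB_OVU c π x, fun x => (BB_OVU c π x).image (fun v => π v))
  let T1 : Finset (Fin k × Fin k → Finset (Fin n)) :=
    Fintype.piFinset (fun x : Fin k × Fin k => Finset.powersetCard (u x.1 x.2)
      ((univ : Finset (Fin n)).filter (fun v => c v = x.1)))
  let T2 : Finset (Fin k × Fin k → Finset (Fin n)) :=
    Fintype.piFinset (fun x : Fin k × Fin k => Finset.powersetCard (u x.1 x.2)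
      ((univ : Finset (Fin n)).filter (fun v => c v = x.2)))
  have hmaps : ∀ π ∈ S, Φ π ∈ T1 ×ˢ T2 := by
    intro π hπ
    rw [hS, Finset.mem_filter] at hπ
    have hu : ∀ x : Fin k × Fin k, (BB_OVU c π x).card = u x.1 x.2 := by
      intro x
      have := congrFun (congrFun hπ.2 x.1) x.2
      rw [← this]
      rfl
    rw [Finset.mem_product]
    refine ⟨?_, ?_⟩
    · simp only [T1, Φ]
      rw [Fintype.mem_piFinset]
      intro x
      rw [Finset.mem_powersetCard]
      refine ⟨?_, hu x⟩
      intro v hv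
      have h1 := BB_sub_OVU c π x hv
      unfold rr_OVU at h1
      rw [Finset.mem_filter] at h1
      rw [Finset.mem_filter]
      exact ⟨Finset.mem_univ _, h1.2.1⟩
    · simp only [T2, Φ]
      rw [Fintype.mem_piFinset]
      intro x
      rw [Finset.mem_powersetCard]
      refine ⟨?_, ?_⟩
      · intro w hw
        rw [Finset.mem_image] at hw
        obtain ⟨v, hv, rfl⟩ := hw
        have h1 := BB_sub_OVU c π x hv
        unfold rr_OVU at h1
        rw [Finset.mem_filter] at h1
        rw [Finset.mem_filter]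
        exact ⟨Finset.mem_univ _, h1.2.2⟩
      · rw [Finset.card_image_of_injective _ π.injective]
        exact hu x
  have hfib : ∀ y ∈ T1 ×ˢ T2, ((S.filter (fun π => Φ π = y)).card : ℝ) ≤
      (∏ x : Fin k × Fin k, ((u x.1 x.2).factorial : ℝ)) *
        ((n - ∑ x : Fin k × Fin k, u x.1 x.2).factorial : ℝ) := by
    intro y _
    rcases (S.filter (fun π => Φ π = y)).eq_empty_or_nonempty with h0 | ⟨π0, h0⟩
    · rw [h0, Finset.card_empty]
      push_cast
      positivity
    · rw [Finset.mem_filter] at h0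
      obtain ⟨hπ0, hy⟩ := h0
      rw [hS, Finset.mem_filter] at hπ0
      have hu : ∀ x : Fin k × Fin k, (BB_OVU c π0 x).card = u x.1 x.2 := by
        intro x
        have := congrFun (congrFun hπ0.2 x.1) x.2
        rw [← this]
        rfl
      have hO1 := hO n (Fin k × Fin k) (fun x => BB_OVU c π0 x)
        (fun x => (BB_OVU c π0 x).image (fun v => π0 v)) (fun x y h => disj_OVU c π0 x y h)
      have e1 : ∏ x : Fin k × Fin k, ((BB_OVU c π0 x).card.factorial : ℝ) =
          ∏ x : Fin k × Fin k, ((u x.1 x.2).factorial : ℝ) :=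
        Finset.prod_congr rfl fun x _ => by rw [hu x]
      have e2 : ∑ x : Fin k × Fin k, (BB_OVU c π0 x).card = ∑ x : Fin k × Fin k, u x.1 x.2 :=
        Finset.sum_congr rfl fun x _ => hu x
      rw [e1, e2] at hO1
      refine le_trans ?_ hO1
      rw [Nat.cast_le]
      refine Finset.card_le_card ?_
      intro π hπ
      rw [Finset.mem_filter] at hπ
      rw [Finset.mem_filter]
      refine ⟨Finset.mem_univ _, fun x => ?_⟩
      have h2 : Φ π = Φ π0 := hπ.2.trans hy.symm
      have h3 : BB_OVU c π x = BB_OVU c π0 x := congrFun (congrArg Prod.fst h2) x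
      have h4 : (BB_OVU c π x).image (fun v => π v) = (BB_OVU c π0 x).image (fun v => π0 v) :=
        congrFun (congrArg Prod.snd h2) x
      rw [h3] at h4
      exact h4
  have hcard : (S.card : ℝ) = ∑ y ∈ T1 ×ˢ T2, ((S.filter (fun π => Φ π = y)).card : ℝ) := by
    rw [Finset.card_eq_sum_card_fiberwise hmaps]
    push_cast
    rfl
  have hT : ((T1 ×ˢ T2).card : ℝ) = (∏ x : Fin k × Fin k, ((sz n k x.1).choose (u x.1 x.2) : ℝ)) *
      ∏ x : Fin k × Fin k, ((sz n k x.2).choose (u x.1 x.2) : ℝ) := by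
    rw [Finset.card_product]
    simp only [T1, T2]
    rw [Fintype.card_piFinset, Fintype.card_piFinset]
    push_cast
    congr 1
    · refine Finset.prod_congr rfl fun x _ => ?_
      rw [Finset.card_powersetCard, hc']
    · refine Finset.prod_congr rfl fun x _ => ?_
      rw [Finset.card_powersetCard, hc']
  rw [hcard]
  refine le_trans (Finset.sum_le_sum hfib) ?_
  rw [Finset.sum_const, nsmul_eq_mul, hT]
  rw [← Fintype.sum_prod_type' (f := fun i j => u i j),
    ← Fintype.prod_prod_type' (f := fun i j => ((sz n k i).choose (u i j) : ℝ) *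
      ((sz n k j).choose (u i j) : ℝ) * ((u i j).factorial : ℝ))]
  rw [Finset.prod_mul_distrib, Finset.prod_mul_distrib]
  refine le_of_eq ?_
  ring

theorem tOVU : StOvc → StOvu := by
  classical
  intro hO p n k c h0 h1 hc
  have hb : (0 : ℝ) ≤ 1 / (1 - p) := by
    have : 0 < 1 - p := by linarith
    positivity
  have e1 : ∀ π : Equiv.Perm (Fin n), (1 / (1 - p)) ^ ov c (c ∘ π) =
      ∏ i, ∏ j, (1 / (1 - p)) ^ ((uu_OVU c π i j).choose 2) := by
    intro π
    rw [ov_OVU]
    rw [← Finset.prod_pow_eq_pow_sum]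
    refine Finset.prod_congr rfl fun i _ => ?_
    rw [← Finset.prod_pow_eq_pow_sum]
  rw [Finset.sum_congr rfl fun π _ => e1 π]
  have hm : ∀ π ∈ (univ : Finset (Equiv.Perm (Fin n))), uu_OVU c π ∈ UU n k :=
    fun π _ => mem_OVU c hc π
  rw [← Finset.sum_fiberwise_of_maps_to hm]
  refine Finset.sum_le_sum fun u _ => ?_
  have e2 : ∑ π ∈ (univ : Finset (Equiv.Perm (Fin n))).filter (fun π => uu_OVU c π = u),
      ∏ i, ∏ j, (1 / (1 - p)) ^ ((uu_OVU c π i j).choose 2) =
      (((univ : Finset (Equiv.Perm (Fin n))).filter (fun π => uu_OVU c π = u)).card : ℝ) *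
        ∏ i, ∏ j, (1 / (1 - p)) ^ ((u i j).choose 2) := by
    rw [← nsmul_eq_mul, ← Finset.sum_const]
    refine Finset.sum_congr rfl fun π hπ => ?_
    rw [Finset.mem_filter] at hπ
    rw [hπ.2]
  rw [e2]
  have h3 := count_OVU hO n k c hc u
  have h4 : (0 : ℝ) ≤ ∏ i, ∏ j, (1 / (1 - p)) ^ ((u i j).choose 2) :=
    Finset.prod_nonneg fun i _ => Finset.prod_nonneg fun j _ => pow_nonneg hb _
  refine le_trans (mul_le_mul_of_nonneg_right h3 h4) ?_
  rw [mul_assoc, ← Finset.prod_mul_distrib]
  refine le_of_eq ?_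
  congr 1
  refine Finset.prod_congr rfl fun i _ => ?_
  rw [← Finset.prod_mul_distrib]
  refine Finset.prod_congr rfl fun j _ => ?_
  unfold Gc
  rfl

end Pool.Agent.Helper88.CN
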